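import Mathlib

set_option autoImplicit false

namespace Pool.Agent.Results.MP_4a71d8_al.NotClosed

/-- The principal right ideal `sS`. -/
def RI {S : Type} [Monoid S] (s : S) : Set S := {x | ∃ y, x = s * y}

/-- Right LCM condition. -/
def RightLCM (S : Type) [Monoid S] : Prop :=
  ∀ s t : S, RI s ∩ RI t = ∅ ∨ ∃ r : S, RI s ∩ RI t = RI r

/-- The core `S_c`. -/
def Core (S : Type) [Monoid S] : Set S := {a | ∀ s : S, (RI a ∩ RI s).Nonempty}

/-- Core irreducible elements. -/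
def CoreIrr (S : Type) [Monoid S] : Set S :=
  {s | s ∉ Core S ∧ ∀ t a : S, a ∈ Core S → s = t * a → IsUnit a}

def p : Fin 3 → Fin 3 := ![0, 0, 2]

theorem pp (w : List (Fin 3)) : (w.map p).map p = w.map p := by
  rw [List.map_map]
  congr 1
  decide

@[ext] structure T where
  k : ℕ
  w : List (Fin 3)

def π (l : ℕ) (w : List (Fin 3)) : List (Fin 3) := if l = 0 then w else w.map p

instance : Mul T := ⟨fun x y => ⟨x.k + y.k, π y.k x.w ++ y.w⟩⟩
instance : One T := ⟨⟨0, []⟩⟩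

theorem mul_def (x y : T) : x * y = ⟨x.k + y.k, π y.k x.w ++ y.w⟩ := rfl
theorem one_def : (1 : T) = ⟨0, []⟩ := rfl

instance : Monoid T where
  mul_assoc x y z := by
    simp only [mul_def, π, T.mk.injEq, add_assoc, true_and]
    by_cases h1 : y.k = 0 <;> by_cases h2 : z.k = 0 <;> simp [h1, h2, -List.map_map, pp]
  one_mul x := by simp [mul_def, one_def, π]
  mul_one x := by simp [mul_def, one_def, π]

theorem mem_RI (s x : T) : x ∈ RI s ↔
    (x.k = s.k ∧ s.w <+: x.w) ∨ (s.k < x.k ∧ s.w.map p <+: x.w) := by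
  constructor
  · rintro ⟨y, rfl⟩
    by_cases h : y.k = 0
    · left; simp [mul_def, π, h]
    · right; simp [mul_def, π, h]; omega
  · rintro (⟨h, u, hu⟩ | ⟨h, u, hu⟩)
    · exact ⟨⟨0, u⟩, by ext1 <;> simp [mul_def, π, h, hu]⟩
    · refine ⟨⟨x.k - s.k, u⟩, ?_⟩
      have : x.k - s.k ≠ 0 := by omega
      ext1
      · simp only [mul_def]; omega
      · simp [mul_def, π, this, hu]

theorem RI_le {s t : T} (h : t ∈ RI s) : RI t ⊆ RI s := by
  obtain ⟨y, rfl⟩ := h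
  rintro _ ⟨z, rfl⟩
  exact ⟨y * z, mul_assoc _ _ _⟩

theorem lcm_aux (s t : T) (hk : s.k ≤ t.k) :
    RI s ∩ RI t = ∅ ∨ ∃ r : T, RI s ∩ RI t = RI r := by
  by_cases h1 : ∃ u, (⟨t.k, u⟩ : T) ∈ RI s ∩ RI t
  · right
    obtain ⟨u, h2, h3⟩ := h1
    have h4 : t.w <+: u := by simpa [mem_RI] using h3
    by_cases h5 : t ∈ RI s
    · exact ⟨t, Set.inter_eq_right.2 (RI_le h5)⟩
    rcases hk.eq_or_lt with hk | hk
    · have h6 : s.w <+: u := by simpa [mem_RI, hk] using h2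
      refine ⟨s, Set.inter_eq_left.2 (RI_le ?_)⟩
      rw [mem_RI] at h5 ⊢
      rcases List.prefix_or_prefix_of_prefix h4 h6 with h | h
      · exact Or.inl ⟨hk, h⟩
      · exact absurd (Or.inl ⟨hk.symm, h⟩) h5
    · have h6 : s.w.map p <+: u := by simpa [mem_RI, hk, hk.ne'] using h2
      have h7 : t.w <+: s.w.map p := by
        rw [mem_RI] at h5
        exact (List.prefix_or_prefix_of_prefix h4 h6).resolve_right fun h => h5 (Or.inr ⟨hk, h⟩)
      refine ⟨⟨t.k, s.w.map p⟩, Set.Subset.antisymm ?_ (Set.subset_inter (RI_le ?_) (RI_le ?_))⟩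
      · rintro x ⟨h8, h9⟩
        rw [mem_RI] at h8 h9 ⊢
        simp only [pp]
        have : t.k ≤ x.k := by omega
        have h10 : s.w.map p <+: x.w := (h8.resolve_left (by omega)).2
        rcases this.eq_or_lt with h | h
        exacts [Or.inl ⟨h.symm, h10⟩, Or.inr ⟨h, h10⟩]
      · rw [mem_RI]; exact Or.inr ⟨hk, List.prefix_rfl⟩
      · rw [mem_RI]; exact Or.inl ⟨rfl, h7⟩
  · have key : ∀ x ∈ RI s ∩ RI t, t.k < x.k ∧ s.w.map p <+: x.w ∧ t.w.map p <+: x.w := by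
      rintro x ⟨h2, h3⟩
      have h4 : x.k ≠ t.k := fun h => h1 ⟨x.w, by rw [← h]; exact ⟨h2, h3⟩⟩
      rw [mem_RI] at h2 h3
      have h5 := h3.resolve_left fun h => h4 h.1
      exact ⟨h5.1, (h2.resolve_left (by omega)).2, h5.2⟩
    rcases (RI s ∩ RI t).eq_empty_or_nonempty with h | ⟨y, hy⟩
    · exact Or.inl h
    right
    obtain ⟨-, h2, h3⟩ := key y hy
    have fin : ∀ v : List (Fin 3), v.map p = v → s.w.map p <+: v → t.w.map p <+: v →
        (∀ u, s.w.map p <+: u → t.w.map p <+: u → v <+: u) → RI s ∩ RI t = RI ⟨t.k + 1, v⟩ := by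
      intro v hv a1 a2 a3
      refine Set.Subset.antisymm ?_ (Set.subset_inter (RI_le ?_) (RI_le ?_))
      · intro x hx
        obtain ⟨b1, b2, b3⟩ := key x hx
        rw [mem_RI]
        simp only [hv]
        rcases (Nat.succ_le_of_lt b1).eq_or_lt with h | h
        exacts [Or.inl ⟨h.symm, a3 _ b2 b3⟩, Or.inr ⟨h, a3 _ b2 b3⟩]
      · rw [mem_RI]; exact Or.inr ⟨Nat.lt_succ_of_le hk, a1⟩
      · rw [mem_RI]; exact Or.inr ⟨Nat.lt_succ_self _, a2⟩
    rcases List.prefix_or_prefix_of_prefix h2 h3 with h | h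
    · exact ⟨_, fin _ (pp _) h List.prefix_rfl fun _ _ h => h⟩
    · exact ⟨_, fin _ (pp _) List.prefix_rfl h fun _ h _ => h⟩

theorem not_core (k : ℕ) (i : Fin 3) (hi : p i = 0) (hi' : i ≠ 2) : (⟨k, [i]⟩ : T) ∉ Core T := by
  intro h
  obtain ⟨x, h1, h2⟩ := h ⟨0, [2]⟩
  rw [mem_RI] at h1 h2
  have h3 : [2] <+: x.w := by rcases h2 with h | h <;> exact h.2
  obtain ⟨u, hu⟩ := h3
  rw [← hu] at h1
  simp [hi, hi'] at h1

theorem core_nil (a : T) (h : a ∈ Core T) : a.w = [] := by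
  obtain ⟨k, w⟩ := a
  rcases w with _ | ⟨i, w⟩
  · rfl
  exfalso
  obtain ⟨x, h1, h2⟩ := h ⟨0, [2]⟩
  obtain ⟨y, h3, h4⟩ := h ⟨0, [0]⟩
  rw [mem_RI] at h1 h2 h3 h4
  obtain ⟨u, hu⟩ : [2] <+: x.w := by rcases h2 with h | h <;> exact h.2
  obtain ⟨v, hv⟩ : [0] <+: y.w := by rcases h4 with h | h <;> exact h.2
  rw [← hu] at h1
  rw [← hv] at h3
  fin_cases i <;> simp [p] at h1 h3

theorem irr (i : Fin 3) (hi : p i = 0) (hi' : i ≠ 2) : (⟨0, [i]⟩ : T) ∈ CoreIrr T := by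
  refine ⟨not_core 0 i hi hi', fun t a ha h => ?_⟩
  have h1 : 0 = t.k + a.k := congrArg T.k h
  have : a = 1 := T.ext (by simp only [one_def]; omega) (core_nil a ha)
  rw [this]; exact isUnit_one

/-- A countable right LCM monoid whose core irreducible elements are not closed under right
LCMs. -/
theorem result : ∃ (S : Type) (_ : Monoid S), Countable S ∧ IsLeftCancelMul S ∧ RightLCM S ∧
    ∃ s ∈ CoreIrr S, ∃ t ∈ CoreIrr S, ∃ r : S, RI s ∩ RI t = RI r ∧ r ∉ CoreIrr S := by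
  refine ⟨T, inferInstance, ?_, ⟨fun x y z h => ?_⟩, fun s t => ?_, ⟨0, [0]⟩, irr 0 rfl (by decide),
    ⟨0, [1]⟩, irr 1 rfl (by decide), ⟨1, [0]⟩, ?_, fun h => ?_⟩
  · exact Function.Injective.countable (f := fun t : T => (t.k, t.w))
      (by rintro ⟨_, _⟩ ⟨_, _⟩ h; simpa using h)
  · simp only [mul_def, T.mk.injEq, add_right_inj] at h
    obtain ⟨h1, h2⟩ := h
    rw [h1] at h2
    exact T.ext h1 (List.append_cancel_left h2)
  · rcases le_total s.k t.k with h | h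
    · exact lcm_aux s t h
    · rw [Set.inter_comm]; exact lcm_aux t s h
  · ext ⟨k, w⟩
    simp only [Set.mem_inter_iff, mem_RI]
    rcases w with _ | ⟨i, w⟩
    · simp
    · fin_cases i <;> simp [p] <;> omega
  · have hc : (⟨1, []⟩ : T) ∈ Core T := by
      intro s
      refine ⟨⟨s.k + 1, s.w.map p⟩, ?_, ?_⟩
      · rw [mem_RI]; simp; omega
      · rw [mem_RI]; simp
    obtain ⟨u, hu⟩ := h.2 ⟨0, [0]⟩ ⟨1, []⟩ hc rfl
    have := congrArg T.k u.mul_inv
    rw [hu] at this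
    simp [mul_def, one_def] at this

end Pool.Agent.Results.MP_4a71d8_al.NotClosed
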